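import Pool.Agent.Helper43.LB.Defs

/-!
Asymptotics of the product formulas (row I1 of the project MP_660525_LB):
everything from `log n! = F(n) + O(log n)`.
-/

namespace Pool.Agent.Helper91.LB

open Finset Pool.Agent.Helper43.LB

/-! ### Elementary estimates of `Ff` and `Gf` -/

theorem Ff_zero : Ff 0 = 0 := by simp [Ff]

theorem Gf_zero : Gf 0 = 0 := by simp [Gf]

theorem continuous_Ff : Continuous Ff := by
  unfold Ff
  exact Real.continuous_mul_log.sub continuous_id

theorem continuous_Gf : Continuous Gf := by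
  have : Gf = fun y : ℝ => y / 2 * (y * Real.log y) - 3 / 4 * y ^ 2 := by
    funext y
    unfold Gf
    ring
  rw [this]
  have h := Real.continuous_mul_log
  fun_prop

theorem hasDerivAt_Ff {x : ℝ} (hx : 0 < x) : HasDerivAt Ff (Real.log x) x := by
  have h := ((hasDerivAt_id x).mul (Real.hasDerivAt_log hx.ne')).sub (hasDerivAt_id x)
  have e : (1 : ℝ) * Real.log x + id x * x⁻¹ - 1 = Real.log x := by
    simp only [id]
    field_simp
    ring
  rw [e] at h
  exact h

theorem hasDerivAt_Gf {x : ℝ} (hx : 0 < x) : HasDerivAt Gf (Ff x) x := by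
  have h1 : HasDerivAt (fun y : ℝ => y ^ 2 / 2) x x := by
    have := ((hasDerivAt_id x).pow 2).div_const 2
    simpa using this
  have h2 : HasDerivAt (fun y : ℝ => 3 / 4 * y ^ 2) (3 / 4 * (2 * x)) x := by
    have := ((hasDerivAt_id x).pow 2).const_mul (3 / 4 : ℝ)
    simpa using this
  have h := (h1.mul (Real.hasDerivAt_log hx.ne')).sub h2
  have e : x * Real.log x + x ^ 2 / 2 * x⁻¹ - 3 / 4 * (2 * x) = Ff x := by
    unfold Ff
    field_simp
    ring
  rw [e] at h
  exact h

/-- mean value form: `F(y) - F(x) = (y-x) log z` -/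
theorem Ff_mvt {x y : ℝ} (hx : 0 ≤ x) (hxy : x < y) :
    ∃ z, x < z ∧ z < y ∧ Ff y - Ff x = (y - x) * Real.log z := by
  obtain ⟨z, hz, h⟩ := exists_hasDerivAt_eq_slope Ff Real.log hxy
    continuous_Ff.continuousOn (fun z hz => hasDerivAt_Ff (lt_of_le_of_lt hx hz.1))
  refine ⟨z, hz.1, hz.2, ?_⟩
  rw [h]
  field_simp [(sub_pos.2 hxy).ne']

theorem Gf_mvt {x y : ℝ} (hx : 0 ≤ x) (hxy : x < y) :
    ∃ z, x < z ∧ z < y ∧ Gf y - Gf x = (y - x) * Ff z := by
  obtain ⟨z, hz, h⟩ := exists_hasDerivAt_eq_slope Gf Ff hxy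
    continuous_Gf.continuousOn (fun z hz => hasDerivAt_Gf (lt_of_le_of_lt hx hz.1))
  refine ⟨z, hz.1, hz.2, ?_⟩
  rw [h]
  field_simp [(sub_pos.2 hxy).ne']


theorem neg_one_le_Ff {y : ℝ} (hy : 0 ≤ y) : -1 ≤ Ff y := by
  rcases hy.eq_or_lt with h | h
  · rw [← h, Ff_zero]
    norm_num
  · have h1 := Real.one_sub_inv_le_log_of_pos h
    have h2 : y * (1 - y⁻¹) ≤ y * Real.log y := mul_le_mul_of_nonneg_left h1 hy
    have h3 : y * (1 - y⁻¹) = y - 1 := by field_simp
    unfold Ff
    linarith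

theorem Ff_nonpos {y : ℝ} (hy : 0 ≤ y) (h1 : y ≤ 1) : Ff y ≤ 0 := by
  have h2 : Real.log y ≤ 0 := Real.log_nonpos hy h1
  have h3 : y * Real.log y ≤ 0 := mul_nonpos_of_nonneg_of_nonpos hy h2
  unfold Ff
  linarith

theorem Ff_sub_le {x y : ℝ} (hx : 0 ≤ x) (hxy : x ≤ y) :
    |Ff y - Ff x| ≤ 1 + (y - x) * Real.log (y + 1) := by
  rcases hxy.eq_or_lt with h | h
  · rw [h]
    simp
  have hy : 0 < y := lt_of_le_of_lt hx h
  have hl : 0 ≤ Real.log (y + 1) := Real.log_nonneg (by linarith)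
  have h0 : 0 ≤ (y - x) * Real.log (y + 1) := mul_nonneg (by linarith) hl
  obtain ⟨z, hz1, hz2, hz⟩ := Ff_mvt hx h
  have hzpos : 0 < z := lt_of_le_of_lt hx hz1
  rw [abs_le]
  constructor
  · by_cases hx1 : x ≤ 1
    · have h1 := neg_one_le_Ff hy.le
      have h2 := Ff_nonpos hx hx1
      linarith
    · push Not at hx1
      have h1 : 0 ≤ Real.log z := Real.log_nonneg (by linarith)
      have h2 : 0 ≤ (y - x) * Real.log z := mul_nonneg (by linarith) h1
      linarith
  · rw [hz]
    have h1 : Real.log z ≤ Real.log (y + 1) := Real.log_le_log hzpos (by linarith)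
    have h2 : (y - x) * Real.log z ≤ (y - x) * Real.log (y + 1) :=
      mul_le_mul_of_nonneg_left h1 (by linarith)
    linarith

theorem Gf_sub_le {x s : ℝ} (hx : 0 ≤ x) (hs : 0 < s) :
    |Gf (x + s) - Gf x - s * Ff x| ≤ s * (1 + s * Real.log (x + s + 1)) := by
  obtain ⟨z, hz1, hz2, hz⟩ := Gf_mvt hx (show x < x + s by linarith)
  have e : Gf (x + s) - Gf x - s * Ff x = s * (Ff z - Ff x) := by
    rw [hz]
    ring
  rw [e, abs_mul, abs_of_pos hs]
  apply mul_le_mul_of_nonneg_left _ hs.le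
  refine (Ff_sub_le hx hz1.le).trans ?_
  have h1 : Real.log (z + 1) ≤ Real.log (x + s + 1) := Real.log_le_log (by linarith) (by linarith)
  have h2 : 0 ≤ Real.log (x + s + 1) := Real.log_nonneg (by linarith)
  have h3 : (z - x) * Real.log (z + 1) ≤ s * Real.log (x + s + 1) :=
    mul_le_mul (by linarith) h1 (Real.log_nonneg (by linarith)) hs.le
  linarith

/-! ### Factorials -/

/-- `log n!` -/
noncomputable def lf (n : ℕ) : ℝ := Real.log (n.factorial : ℝ)

theorem lf_zero : lf 0 = 0 := by simp [lf]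

theorem lf_succ (n : ℕ) : lf (n + 1) = Real.log ((n : ℝ) + 1) + lf n := by
  unfold lf
  rw [Nat.factorial_succ]
  push_cast
  rw [Real.log_mul (by positivity) (by positivity)]

theorem lf_nonneg (n : ℕ) : 0 ≤ lf n :=
  Real.log_nonneg (by exact_mod_cast n.factorial_pos)

theorem Ff_le_lf (n : ℕ) : Ff n ≤ lf n := by
  induction n with
  | zero => simp [lf_zero, Ff_zero]
  | succ n ih =>
    obtain ⟨z, hz1, hz2, hz⟩ := Ff_mvt (x := n) (y := (n : ℝ) + 1) (by positivity) (by linarith)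
    rw [lf_succ]
    push_cast
    have h0 : (0 : ℝ) ≤ n := by positivity
    have h1 : Real.log z ≤ Real.log ((n : ℝ) + 1) := Real.log_le_log (by linarith) hz2.le
    have h2 : Ff ((n : ℝ) + 1) = Ff n + Real.log z := by
      have : ((n : ℝ) + 1 - n) = 1 := by ring
      rw [this] at hz
      linarith
    linarith

theorem lf_le_Ff (n : ℕ) : lf n ≤ Ff n + 1 + Real.log n := by
  rcases Nat.eq_zero_or_pos n with rfl | hn
  · simp [lf_zero, Ff_zero]
  induction n, hn using Nat.le_induction with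
  | base => simp [lf, Ff]
  | succ n hn ih =>
    obtain ⟨z, hz1, hz2, hz⟩ := Ff_mvt (x := n) (y := (n : ℝ) + 1) (by positivity) (by linarith)
    rw [lf_succ]
    push_cast
    have h0 : (1 : ℝ) ≤ n := by exact_mod_cast hn
    have h1 : Real.log n ≤ Real.log z := Real.log_le_log (by linarith) hz1.le
    have h2 : Ff ((n : ℝ) + 1) = Ff n + Real.log z := by
      have : ((n : ℝ) + 1 - n) = 1 := by ring
      rw [this] at hz
      linarith
    linarith

theorem abs_lf_sub (n : ℕ) : |lf n - Ff n| ≤ 1 + Real.log ((n : ℝ) + 1) := by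
  have h1 := Ff_le_lf n
  have h2 := lf_le_Ff n
  have h3 : Real.log n ≤ Real.log ((n : ℝ) + 1) := by
    rcases Nat.eq_zero_or_pos n with rfl | hn
    · simp
    · apply Real.log_le_log (by exact_mod_cast hn) (by linarith)
  have h4 : 0 ≤ Real.log ((n : ℝ) + 1) := Real.log_nonneg (by
    have : (0 : ℝ) ≤ n := by positivity
    linarith)
  rw [abs_le]
  constructor <;> linarith

/-- the unit of the error terms -/
noncomputable def L (N : ℕ) : ℝ := Real.log ((N : ℝ) + 2)

theorem half_le_L (N : ℕ) : 1 / 2 ≤ L N := by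
  have h1 : Real.log 2 ≤ L N := Real.log_le_log (by norm_num) (by
    have : (0 : ℝ) ≤ N := by positivity
    linarith)
  have h2 := Real.log_two_gt_d9
  linarith

theorem L_pos (N : ℕ) : 0 < L N := by
  have := half_le_L N
  linarith

theorem log_le_L {N : ℕ} {x : ℝ} (hx : 0 ≤ x) (h : x ≤ 16 * ((N : ℝ) + 2)) :
    Real.log x ≤ 7 * L N := by
  rcases hx.eq_or_lt with h0 | h0
  · rw [← h0, Real.log_zero]
    have := L_pos N
    linarith
  have hN : (0 : ℝ) ≤ N := by positivity
  have h1 : Real.log x ≤ Real.log (16 * ((N : ℝ) + 2)) := Real.log_le_log h0 h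
  have h2 : Real.log (16 * ((N : ℝ) + 2)) = 4 * Real.log 2 + L N := by
    rw [Real.log_mul (by norm_num) (by linarith)]
    have : (16 : ℝ) = 2 ^ 4 := by norm_num
    rw [this, Real.log_pow]
    unfold L
    push_cast
    ring
  have h3 := Real.log_two_lt_d9
  have h4 := half_le_L N
  linarith

/-- Stirling with a shift -/
theorem key (N n : ℕ) (x : ℝ) (hx : 0 ≤ x) (hn : (n : ℝ) ≤ 4 * N + 12) (h1 : |(n : ℝ) - x| ≤ 6) :
    |lf n - Ff x| ≤ 60 * L N := by
  have hN : (0 : ℝ) ≤ N := by positivity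
  have hn0 : (0 : ℝ) ≤ n := by positivity
  have hL := half_le_L N
  have ha := abs_lf_sub n
  have hb : Real.log ((n : ℝ) + 1) ≤ 7 * L N := log_le_L (by linarith) (by linarith)
  rw [abs_le] at h1
  have hc : |Ff n - Ff x| ≤ 1 + 6 * (7 * L N) := by
    rcases le_total x n with h | h
    · refine (Ff_sub_le hx h).trans ?_
      have h2 : Real.log ((n : ℝ) + 1) ≤ 7 * L N := hb
      have h3 : ((n : ℝ) - x) * Real.log ((n : ℝ) + 1) ≤ 6 * (7 * L N) :=
        mul_le_mul (by linarith) h2 (Real.log_nonneg (by linarith)) (by norm_num)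
      linarith
    · rw [abs_sub_comm]
      refine (Ff_sub_le hn0 h).trans ?_
      have h2 : Real.log (x + 1) ≤ 7 * L N := log_le_L (by linarith) (by linarith)
      have h3 : (x - (n : ℝ)) * Real.log (x + 1) ≤ 6 * (7 * L N) :=
        mul_le_mul (by linarith) h2 (Real.log_nonneg (by linarith)) (by norm_num)
      linarith
  have hd : |lf n - Ff x| ≤ |lf n - Ff n| + |Ff n - Ff x| := abs_sub_le _ _ _
  linarith

theorem keyG (N : ℕ) (x s : ℝ) (hx : 0 ≤ x) (hs : 0 < s) (hs2 : s ≤ 2) (hn : x ≤ 4 * N + 12) :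
    |Gf (x + s) - Gf x - s * Ff x| ≤ 32 * L N := by
  have hN : (0 : ℝ) ≤ N := by positivity
  have hL := half_le_L N
  refine (Gf_sub_le hx hs).trans ?_
  have h2 : Real.log (x + s + 1) ≤ 7 * L N := log_le_L (by linarith) (by linarith)
  have h3 : s * Real.log (x + s + 1) ≤ 2 * (7 * L N) :=
    mul_le_mul hs2 h2 (Real.log_nonneg (by linarith)) (by norm_num)
  have h4 : 0 ≤ s * Real.log (x + s + 1) := mul_nonneg hs.le (Real.log_nonneg (by linarith))
  have h5 : s * (1 + s * Real.log (x + s + 1)) ≤ 2 * (1 + 2 * (7 * L N)) :=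
    mul_le_mul hs2 (by linarith) (by linarith) (by norm_num)
  linarith

theorem L_mono {N M : ℕ} (h : N ≤ M) : L N ≤ L M := by
  apply Real.log_le_log
  · positivity
  · have : (N : ℝ) ≤ M := by exact_mod_cast h
    linarith


/-! ### Products over intervals -/

theorem Ioc_succ (a b : ℕ) (h : a ≤ b) : Ioc a (b + 1) = insert (b + 1) (Ioc a b) := by
  ext x
  simp only [mem_Ioc, mem_insert]
  omega

theorem pp_insert (f : ℝ → ℝ → ℝ) (S : Finset ℕ) (t : ℕ) (h : ∀ s ∈ S, s < t) :
    pp f (insert t S) = pp f S * ∏ s ∈ S, f s t := by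
  have ht : t ∉ S := fun hh => lt_irrefl _ (h t hh)
  unfold pp
  rw [prod_insert ht, mul_comm]
  congr 1
  · apply prod_congr rfl
    intro x hx
    congr 1
    rw [filter_insert, if_neg (by have := h x hx; omega)]
  · congr 1
    rw [filter_insert, if_neg (lt_irrefl _)]
    exact filter_true_of_mem h

/-- logarithm of `ip * vn` of an interval -/
noncomputable def wv (a b : ℕ) : ℝ := Real.log (ip (Ioc a b) * vn (Ioc a b))

theorem ip_pos (S : Finset ℕ) (h : ∀ s ∈ S, 1 ≤ s) : 0 < ip S :=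
  prod_pos fun s hs => by exact_mod_cast h s hs

theorem vn_pos (S : Finset ℕ) : 0 < vn S := by
  unfold vn pp
  refine prod_pos fun t _ => prod_pos fun s hs => ?_
  have h1 : s < t := (mem_filter.1 hs).2
  have h2 : (s : ℝ) < t := by exact_mod_cast h1
  have h3 : (0 : ℝ) ≤ s := by positivity
  nlinarith

theorem wv_self (a : ℕ) : wv a a = 0 := by
  simp [wv, ip, vn, pp]

theorem prod_sub (a n : ℕ) :
    ∏ s ∈ Ioc a (a + n), (((a + n + 1 : ℕ) : ℝ) - s) = (n.factorial : ℝ) := by
  have h1 : Ioc a (a + n) = Ico (a + 1) (a + n + 1) := by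
    ext x
    simp only [mem_Ioc, mem_Ico]
    omega
  rw [h1, prod_Ico_eq_prod_range]
  have h2 : a + n + 1 - (a + 1) = n := by omega
  rw [h2, ← prod_range_add_one_eq_factorial, ← prod_range_reflect]
  push_cast
  apply prod_congr rfl
  intro i hi
  have h3 : i < n := mem_range.1 hi
  have h4 : ((n - 1 - i : ℕ) : ℝ) = n - 1 - i := by
    rw [Nat.cast_sub (by omega), Nat.cast_sub (by omega)]
    simp
  rw [h4]
  ring

theorem prod_add (a n : ℕ) :
    ((2 * a + n + 1).factorial : ℝ) * ∏ s ∈ Ioc a (a + n), (((a + n + 1 : ℕ) : ℝ) + s)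
      = ((2 * a + 2 * n + 1).factorial : ℝ) := by
  have h1 : Ioc a (a + n) = Ico (a + 1) (a + n + 1) := by
    ext x
    simp only [mem_Ioc, mem_Ico]
    omega
  rw [h1, prod_Ico_eq_prod_range]
  have h2 : a + n + 1 - (a + 1) = n := by omega
  have h3 : (2 * a + 2 * n + 1).factorial
      = (2 * a + n + 1).factorial * (2 * a + n + 1 + 1).ascFactorial n := by
    rw [Nat.factorial_mul_ascFactorial]
    congr 1
    ring
  rw [h2, h3, Nat.ascFactorial_eq_prod_range]
  push_cast
  congr 1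
  apply prod_congr rfl
  intro i _
  ring

theorem wv_succ (a b : ℕ) (h : a ≤ b) :
    wv a (b + 1) = wv a b + Real.log ((b : ℝ) + 1) + lf (b - a) + lf (2 * b + 1)
      - lf (a + b + 1) := by
  obtain ⟨n, rfl⟩ := Nat.exists_eq_add_of_le h
  have hni : a + n + 1 ∉ Ioc a (a + n) := by simp
  have hlt : ∀ s ∈ Ioc a (a + n), s < a + n + 1 := by
    intro s hs
    have := (mem_Ioc.1 hs).2
    omega
  have hip : 0 < ip (Ioc a (a + n)) := ip_pos _ (by
    intro s hs
    have := (mem_Ioc.1 hs).1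
    omega)
  have hvn : 0 < vn (Ioc a (a + n)) := vn_pos _
  have hs := prod_sub a n
  have ha := prod_add a n
  set Q := ∏ s ∈ Ioc a (a + n), (((a + n + 1 : ℕ) : ℝ) + s) with hQ
  have hQpos : 0 < Q := prod_pos fun s _ => by positivity
  have e1 : ip (Ioc a (a + n + 1)) = ((a + n + 1 : ℕ) : ℝ) * ip (Ioc a (a + n)) := by
    rw [Ioc_succ _ _ h]
    unfold ip
    rw [prod_insert hni]
  have e2 : vn (Ioc a (a + n + 1)) = vn (Ioc a (a + n)) * ((n.factorial : ℝ) * Q) := by
    rw [Ioc_succ _ _ h]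
    unfold vn
    rw [pp_insert _ _ _ hlt, ← hs, hQ, ← prod_mul_distrib]
    congr 1
    apply prod_congr rfl
    intro s _
    ring
  have e3 : Real.log Q = lf (2 * a + 2 * n + 1) - lf (2 * a + n + 1) := by
    unfold lf
    rw [← ha, Real.log_mul (by positivity) hQpos.ne']
    ring
  unfold wv
  rw [e1, e2]
  have e4 : ((a + n + 1 : ℕ) : ℝ) * ip (Ioc a (a + n)) * (vn (Ioc a (a + n)) * ((n.factorial : ℝ) * Q))
      = (ip (Ioc a (a + n)) * vn (Ioc a (a + n))) * ((a + n + 1 : ℕ) : ℝ) * (n.factorial : ℝ) * Q := by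
    ring
  have hn1 : (0 : ℝ) < ((a + n + 1 : ℕ) : ℝ) := by positivity
  have hn2 : (0 : ℝ) < (n.factorial : ℝ) := by positivity
  rw [e4, Real.log_mul (by positivity) hQpos.ne', Real.log_mul (by positivity) hn2.ne',
    Real.log_mul (by positivity) hn1.ne', e3]
  have h5 : a + n - a = n := by omega
  have h6 : 2 * (a + n) + 1 = 2 * a + 2 * n + 1 := by ring
  have h7 : a + (a + n) + 1 = 2 * a + n + 1 := by ring
  rw [h5, h6, h7]
  unfold lf
  push_cast
  ring

theorem wv_pred (a b : ℕ) (h : a + 1 ≤ b) :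
    wv a b = wv (a + 1) b + Real.log ((a : ℝ) + 1) + lf (b - a - 1) + lf (a + b + 1)
      - lf (2 * a + 2) := by
  induction b, h using Nat.le_induction with
  | base =>
    rw [wv_succ a a le_rfl, wv_self, wv_self]
    have h1 : a + 1 - a - 1 = 0 := by omega
    have h2 : a + (a + 1) + 1 = 2 * a + 2 := by ring
    have h3 : a + a + 1 = 2 * a + 1 := by ring
    rw [h1, h2, h3, Nat.sub_self]
    ring
  | succ b hb ih =>
    rw [wv_succ a b (by omega), wv_succ (a + 1) b hb, ih]
    have h1 : b - (a + 1) = b - a - 1 := by omega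
    have h2 : b + 1 - a - 1 = b - a := by omega
    have h3 : a + 1 + b + 1 = a + b + 2 := by ring
    have h4 : a + (b + 1) + 1 = a + b + 2 := by ring
    rw [h1, h2, h3, h4]
    ring

/-- `log od n` -/
noncomputable def lo (n : ℕ) : ℝ := Real.log (od n)

theorem od_pos (n : ℕ) : 0 < od n := prod_pos fun l _ => by positivity

theorem lo_zero : lo 0 = 0 := by simp [lo, od]

theorem lo_succ (n : ℕ) : lo (n + 1) = lo n + lf (2 * n + 1) := by
  unfold lo lf od
  rw [prod_range_succ, Real.log_mul (prod_pos fun l _ => by positivity).ne' (by positivity)]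

theorem log_Zf_eq (n p : ℕ) : Real.log (Zf (n + 1) p) = wv p (p + n) - lo n := by
  have h1 : Ico (p + 1) (p + (n + 1)) = Ioc p (p + n) := by
    ext x
    simp only [mem_Ioc, mem_Ico]
    omega
  have h2 : (Ioc p (p + n)).card = n := by simp
  unfold Zf Lf
  rw [h1, h2]
  have hip : 0 < ip (Ioc p (p + n)) := ip_pos _ (by
    intro s hs
    have := (mem_Ioc.1 hs).1
    omega)
  rw [Real.log_div (mul_pos hip (vn_pos _)).ne' (od_pos n).ne']
  rfl

theorem log_Kf_eq (k a b : ℕ) :
    Real.log (Kf k a b) = wv a b - lo k - lo (k + (b - a)) := by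
  unfold Kf
  have hip : 0 < ip (Ioc a b) := ip_pos _ (by
    intro s hs
    have := (mem_Ioc.1 hs).1
    omega)
  rw [Real.log_div (mul_pos hip (vn_pos _)).ne' (mul_pos (od_pos _) (od_pos _)).ne',
    Real.log_mul (od_pos _).ne' (od_pos _).ne']
  unfold wv lo
  ring

/-- `∑_{l<k} log (2l+1+j)!` -/
noncomputable def loj (j k : ℕ) : ℝ := ∑ l ∈ range k, lf (2 * l + 1 + j)

theorem log_Kt_eq (k j a b : ℕ) :
    Real.log (Kt k j a b) = wv (a + j) b - loj j k - lo (k + (b - a) - j) := by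
  unfold Kt
  have hip : 0 < ip (Ioc (a + j) b) := ip_pos _ (by
    intro s hs
    have := (mem_Ioc.1 hs).1
    omega)
  have h1 : (0 : ℝ) < ∏ l ∈ range k, ((2 * l + 1 + j).factorial : ℝ) :=
    prod_pos fun l _ => by positivity
  have h2 : Real.log (∏ l ∈ range k, ((2 * l + 1 + j).factorial : ℝ)) = loj j k := by
    rw [Real.log_prod]
    · rfl
    · intro l _
      positivity
  rw [Real.log_div (mul_pos hip (vn_pos _)).ne' (mul_pos h1 (od_pos _)).ne',
    Real.log_mul h1.ne' (od_pos _).ne', h2]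
  unfold wv lo
  ring


/-! ### Main terms -/

theorem abs_le_bounds {x y c : ℝ} (h : |x - y| ≤ c) : x ≤ y + c ∧ y - c ≤ x := by
  rw [abs_le] at h
  constructor <;> linarith [h.1, h.2]

theorem wv_main (N a b : ℕ) (hab : a ≤ b) (hb : b ≤ N) :
    |wv a b - Vf a b| ≤ 300 * ((b : ℝ) - a) * L N := by
  induction b, hab using Nat.le_induction with
  | base =>
    rw [wv_self]
    have : Vf (a : ℝ) a = 0 := by
      unfold Vf
      rw [sub_self, Gf_zero, ← two_mul]
      ring
    rw [this]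
    simp
  | succ b hab ih =>
    have ih' := ih (by omega)
    have hN : (b : ℝ) + 1 ≤ N := by exact_mod_cast hb
    have ha : (a : ℝ) ≤ b := by exact_mod_cast hab
    have ha0 : (0 : ℝ) ≤ a := by positivity
    have hb0 : (0 : ℝ) ≤ b := by positivity
    have hL := L_pos N
    have c1 : ((b - a : ℕ) : ℝ) = (b : ℝ) - a := Nat.cast_sub hab
    have k1 := abs_le_bounds (key N (b - a) ((b : ℝ) - a) (by linarith)
      (by rw [c1]; linarith) (by rw [c1]; simp))
    have k2 := abs_le_bounds (key N (2 * b + 1) (2 * b) (by linarith)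
      (by push_cast; linarith) (by push_cast; rw [abs_le]; constructor <;> linarith))
    have k3 := abs_le_bounds (key N (a + b + 1) ((a : ℝ) + b) (by linarith)
      (by push_cast; linarith) (by push_cast; rw [abs_le]; constructor <;> linarith))
    have g1 := abs_le_bounds (keyG N ((b : ℝ) - a) 1 (by linarith) one_pos (by norm_num)
      (by linarith))
    have g2 := abs_le_bounds (keyG N (2 * (b : ℝ)) 2 (by linarith) two_pos le_rfl
      (by linarith))
    have g3 := abs_le_bounds (keyG N ((a : ℝ) + b) 1 (by linarith) one_pos (by norm_num)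
      (by linarith))
    have l1 : Real.log ((b : ℝ) + 1) ≤ 7 * L N := log_le_L (by linarith) (by linarith)
    have l2 : 0 ≤ Real.log ((b : ℝ) + 1) := Real.log_nonneg (by linarith)
    have i1 := abs_le_bounds ih'
    rw [wv_succ a b hab]
    have e : Vf (a : ℝ) ((b + 1 : ℕ) : ℝ) = Vf a b + (Gf ((b : ℝ) - a + 1) - Gf ((b : ℝ) - a))
        + (Gf (2 * (b : ℝ) + 2) - Gf (2 * b)) / 2 - (Gf ((a : ℝ) + b + 1) - Gf ((a : ℝ) + b)) := by
      unfold Vf
      push_cast
      have e1 : (b : ℝ) + 1 - a = (b : ℝ) - a + 1 := by ring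
      have e2 : 2 * ((b : ℝ) + 1) = 2 * (b : ℝ) + 2 := by ring
      have e3 : (a : ℝ) + (b + 1) = (a : ℝ) + b + 1 := by ring
      rw [e1, e2, e3]
      ring
    rw [e, abs_le]
    push_cast
    have hx : 300 * ((b : ℝ) + 1 - a) * L N = 300 * ((b : ℝ) - a) * L N + 300 * L N := by ring
    rw [hx]
    constructor <;> linarith [k1.1, k1.2, k2.1, k2.2, k3.1, k3.2, g1.1, g1.2, g2.1, g2.2,
      g3.1, g3.2, i1.1, i1.2]

theorem lo_main (N n : ℕ) (hn : n ≤ N) : |lo n - Gf (2 * n) / 2| ≤ 300 * (n : ℝ) * L N := by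
  induction n with
  | zero => simp [lo_zero, Gf_zero]
  | succ n ih =>
    have ih' := ih (by omega)
    have hN : (n : ℝ) + 1 ≤ N := by exact_mod_cast hn
    have h0 : (0 : ℝ) ≤ n := by positivity
    have hL := L_pos N
    have k2 := abs_le_bounds (key N (2 * n + 1) (2 * n) (by linarith)
      (by push_cast; linarith) (by push_cast; rw [abs_le]; constructor <;> linarith))
    have g2 := abs_le_bounds (keyG N (2 * (n : ℝ)) 2 (by linarith) two_pos le_rfl
      (by linarith))
    have i1 := abs_le_bounds ih'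
    rw [lo_succ]
    have e2 : 2 * (((n + 1 : ℕ) : ℝ)) = 2 * (n : ℝ) + 2 := by push_cast; ring
    rw [e2, abs_le]
    push_cast
    have hx : 300 * ((n : ℝ) + 1) * L N = 300 * (n : ℝ) * L N + 300 * L N := by ring
    rw [hx]
    constructor <;> linarith [k2.1, k2.2, g2.1, g2.2, i1.1, i1.2]

theorem loj_main (N j k : ℕ) (hn : 2 * k + j ≤ 4 * N) :
    |loj j k - (Gf (2 * k + j) - Gf j) / 2| ≤ 300 * (k : ℝ) * L N := by
  induction k with
  | zero => simp [loj]
  | succ k ih =>
    have ih' := ih (by omega)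
    have hN : 2 * ((k : ℝ) + 1) + j ≤ 4 * N := by exact_mod_cast hn
    have h0 : (0 : ℝ) ≤ k := by positivity
    have hj : (0 : ℝ) ≤ j := by positivity
    have hL := L_pos N
    have k2 := abs_le_bounds (key N (2 * k + 1 + j) (2 * k + j) (by positivity)
      (by push_cast; linarith) (by push_cast; rw [abs_le]; constructor <;> linarith))
    have g2 := abs_le_bounds (keyG N (2 * (k : ℝ) + j) 2 (by linarith) two_pos le_rfl
      (by linarith))
    have i1 := abs_le_bounds ih'
    have e1 : loj j (k + 1) = loj j k + lf (2 * k + 1 + j) := by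
      unfold loj
      rw [sum_range_succ]
    have e2 : 2 * (((k + 1 : ℕ) : ℝ)) + j = 2 * (k : ℝ) + j + 2 := by push_cast; ring
    rw [e1, e2, abs_le]
    push_cast
    have hx : 300 * ((k : ℝ) + 1) * L N = 300 * (k : ℝ) * L N + 300 * L N := by ring
    rw [hx]
    constructor <;> linarith [k2.1, k2.2, g2.1, g2.2, i1.1, i1.2]

theorem log_Zf : ∃ C : ℝ, ∀ m p : ℕ, 1 ≤ m →
    |Real.log (Zf m p) - Sf m p| ≤ C * m * Real.log (p + m + 1) := by
  refine ⟨1000, fun m p hm => ?_⟩
  obtain ⟨n, rfl⟩ := Nat.exists_eq_add_of_le' hm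
  have eL : Real.log ((p : ℝ) + ((n + 1 : ℕ) : ℝ) + 1) = L (p + n) := by
    unfold L
    push_cast
    congr 1
    ring
  rw [eL, log_Zf_eq]
  have h0 : (0 : ℝ) ≤ n := by positivity
  have hp : (0 : ℝ) ≤ p := by positivity
  have hL := half_le_L (p + n)
  have i1 := abs_le_bounds (wv_main (p + n) p (p + n) (by omega) le_rfl)
  have i2 := abs_le_bounds (lo_main (p + n) n (by omega))
  set N := p + n with hNdef
  have hN : (N : ℝ) = p + n := by rw [hNdef]; push_cast; ring
  have e : Sf ((n + 1 : ℕ) : ℝ) p = Vf p (N : ℝ) - Gf (2 * n) / 2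
      + (Gf ((n : ℝ) + 1) - Gf n) + (Gf (2 * p + 2 * n + 2) - Gf (2 * p + 2 * (n : ℝ))) / 2
      - (Gf (2 * p + n + 1) - Gf (2 * p + (n : ℝ))) - (Gf (2 * n + 2) - Gf (2 * (n : ℝ))) / 2 := by
    unfold Sf Vf
    rw [hN]
    push_cast
    have e1 : (p : ℝ) + n - p = n := by ring
    have e2 : 2 * ((p : ℝ) + n) = 2 * p + 2 * n := by ring
    have e3 : (p : ℝ) + (p + n) = 2 * p + n := by ring
    have e4 : 2 * (p : ℝ) + 2 * (n + 1) = 2 * p + 2 * n + 2 := by ring
    have e5 : 2 * (p : ℝ) + (n + 1) = 2 * p + n + 1 := by ring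
    have e6 : 2 * ((n : ℝ) + 1) = 2 * n + 2 := by ring
    rw [e1, e2, e3, e4, e5, e6]
    ring
  have g1 := abs_le_bounds (keyG N (n : ℝ) 1 h0 one_pos (by norm_num) (by rw [hN]; linarith))
  have g2 := abs_le_bounds (keyG N (2 * p + 2 * (n : ℝ)) 2 (by linarith) two_pos le_rfl
    (by rw [hN]; linarith))
  have g3 := abs_le_bounds (keyG N (2 * p + (n : ℝ)) 1 (by linarith) one_pos (by norm_num)
    (by rw [hN]; linarith))
  have g4 := abs_le_bounds (keyG N (2 * (n : ℝ)) 2 (by linarith) two_pos le_rfl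
    (by rw [hN]; linarith))
  have f1 := Ff_sub_le (x := 2 * (p : ℝ) + n) (y := 2 * p + 2 * (n : ℝ)) (by linarith)
    (by linarith)
  have f2 := Ff_sub_le (x := (n : ℝ)) (y := 2 * (n : ℝ)) (by linarith) (by linarith)
  have l1 : Real.log (2 * (p : ℝ) + 2 * n + 1) ≤ 7 * L N :=
    log_le_L (by linarith) (by rw [hN]; linarith)
  have l2 : Real.log (2 * (n : ℝ) + 1) ≤ 7 * L N :=
    log_le_L (by linarith) (by rw [hN]; linarith)
  have m1 : (2 * (p : ℝ) + 2 * n - (2 * p + n)) * Real.log (2 * (p : ℝ) + 2 * n + 1)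
      ≤ n * (7 * L N) := by
    have : 2 * (p : ℝ) + 2 * n - (2 * p + n) = n := by ring
    rw [this]
    exact mul_le_mul_of_nonneg_left l1 h0
  have m2 : (2 * (n : ℝ) - n) * Real.log (2 * (n : ℝ) + 1) ≤ n * (7 * L N) := by
    have : 2 * (n : ℝ) - n = n := by ring
    rw [this]
    exact mul_le_mul_of_nonneg_left l2 h0
  have f1' := abs_le.1 f1
  have f2' := abs_le.1 f2
  have hnL : 0 ≤ (n : ℝ) * L N := mul_nonneg h0 (by linarith)
  rw [e, abs_le]
  have d1 : (N : ℝ) - p = n := by rw [hN]; ring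
  rw [d1] at i1
  push_cast
  constructor
  · nlinarith [i1.1, i1.2, i2.1, i2.2, g1.1, g1.2, g2.1, g2.2, g3.1, g3.2, g4.1, g4.2,
      f1'.1, f1'.2, f2'.1, f2'.2]
  · nlinarith [i1.1, i1.2, i2.1, i2.2, g1.1, g1.2, g2.1, g2.2, g3.1, g3.2, g4.1, g4.2,
      f1'.1, f1'.2, f2'.1, f2'.2]


theorem log_Kf : ∃ C : ℝ, ∀ k a b : ℕ, k ≤ a → a ≤ b →
    |Real.log (Kf k a b) - (Vf a b - Gf (2 * k) / 2 - Gf (2 * (k + (b - a))) / 2)|
      ≤ C * (b + 1) * Real.log (b + 2) := by
  refine ⟨900, fun k a b hk hab => ?_⟩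
  have eL : Real.log ((b : ℝ) + 2) = L b := rfl
  rw [eL, log_Kf_eq]
  have hL := L_pos b
  have i1 := abs_le_bounds (wv_main b a b hab le_rfl)
  have i2 := abs_le_bounds (lo_main b k (by omega))
  have i3 := abs_le_bounds (lo_main b (k + (b - a)) (by omega))
  have c1 : ((k + (b - a) : ℕ) : ℝ) = (k : ℝ) + (b - a) := by
    rw [Nat.cast_add, Nat.cast_sub hab]
  rw [c1] at i3
  have hk' : (k : ℝ) ≤ a := by exact_mod_cast hk
  have hab' : (a : ℝ) ≤ b := by exact_mod_cast hab
  have hk0 : (0 : ℝ) ≤ k := by positivity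
  have m1 : 300 * ((b : ℝ) - a) * L b ≤ 300 * (b : ℝ) * L b := by
    apply mul_le_mul_of_nonneg_right _ hL.le
    linarith
  have m2 : 300 * (k : ℝ) * L b ≤ 300 * (b : ℝ) * L b := by
    apply mul_le_mul_of_nonneg_right _ hL.le
    linarith
  have m3 : 300 * ((k : ℝ) + (b - a)) * L b ≤ 300 * (b : ℝ) * L b := by
    apply mul_le_mul_of_nonneg_right _ hL.le
    linarith
  have m4 : 900 * ((b : ℝ) + 1) * L b = 3 * (300 * (b : ℝ) * L b) + 900 * L b := by ring
  rw [m4, abs_le]
  constructor <;> linarith [i1.1, i1.2, i2.1, i2.2, i3.1, i3.2]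

theorem log_Kt : ∃ C : ℝ, ∀ k j a b : ℕ, k ≤ a → a + j ≤ b →
    |Real.log (Kt k j a b) - (Vf (a + j) b - (Gf (2 * k + j) - Gf j) / 2
        - Gf (2 * (k + (b - a) - j)) / 2)|
      ≤ C * (b + 1) * Real.log (b + 2) := by
  refine ⟨900, fun k j a b hk hab => ?_⟩
  have eL : Real.log ((b : ℝ) + 2) = L b := rfl
  rw [eL, log_Kt_eq]
  have hL := L_pos b
  have i1 := abs_le_bounds (wv_main b (a + j) b hab le_rfl)
  have i2 := abs_le_bounds (loj_main b j k (by omega))
  have i3 := abs_le_bounds (lo_main b (k + (b - a) - j) (by omega))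
  have c1 : ((k + (b - a) - j : ℕ) : ℝ) = (k : ℝ) + (b - a) - j := by
    rw [Nat.cast_sub (by omega), Nat.cast_add, Nat.cast_sub (by omega)]
  rw [c1] at i3
  have c2 : ((a + j : ℕ) : ℝ) = (a : ℝ) + j := by push_cast; ring
  rw [c2] at i1
  have hk' : (k : ℝ) ≤ a := by exact_mod_cast hk
  have hab' : (a : ℝ) + j ≤ b := by exact_mod_cast hab
  have hk0 : (0 : ℝ) ≤ k := by positivity
  have hj0 : (0 : ℝ) ≤ j := by positivity
  have m1 : 300 * ((b : ℝ) - (a + j)) * L b ≤ 300 * (b : ℝ) * L b := by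
    apply mul_le_mul_of_nonneg_right _ hL.le
    linarith
  have m2 : 300 * (k : ℝ) * L b ≤ 300 * (b : ℝ) * L b := by
    apply mul_le_mul_of_nonneg_right _ hL.le
    linarith
  have m3 : 300 * ((k : ℝ) + (b - a) - j) * L b ≤ 300 * (b : ℝ) * L b := by
    apply mul_le_mul_of_nonneg_right _ hL.le
    linarith
  have m4 : 900 * ((b : ℝ) + 1) * L b = 3 * (300 * (b : ℝ) * L b) + 900 * L b := by ring
  rw [m4, abs_le]
  constructor <;> linarith [i1.1, i1.2, i2.1, i2.2, i3.1, i3.2]

/-! ### Ratios -/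

theorem log_Uf_eq (k p w : ℕ) :
    Real.log (Uf k (p + k) (p + k + w)) = wv p (p + (2 * k + w)) - lo (2 * k + w)
      - (wv (p + k) (p + k + w) - lo k - lo (k + w)) := by
  unfold Uf
  have h1 : p + k + w - (p + k) = w := by omega
  have h2 : p + k - k = p := by omega
  have h3 : 2 * k + 1 + w = (2 * k + w) + 1 := by ring
  have hK : Kf k (p + k) (p + k + w) ≠ 0 := by
    unfold Kf
    have hip : 0 < ip (Ioc (p + k) (p + k + w)) := ip_pos _ (by
      intro s hs
      have := (mem_Ioc.1 hs).1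
      omega)
    exact (div_pos (mul_pos hip (vn_pos _)) (mul_pos (od_pos _) (od_pos _))).ne'
  have hZ : Zf (2 * k + w + 1) p ≠ 0 := by
    unfold Zf Lf
    have hip : 0 < ip (Ico (p + 1) (p + (2 * k + w + 1))) := ip_pos _ (by
      intro s hs
      have := (mem_Ico.1 hs).1
      omega)
    exact (div_pos (mul_pos hip (vn_pos _)) (od_pos _)).ne'
  rw [h1, h2, h3, Real.log_div hZ hK, log_Zf_eq, log_Kf_eq, h1]

theorem log_ip (a b : ℕ) (h : a ≤ b) : Real.log (ip (Ioc a b)) = lf b - lf a := by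
  induction b, h using Nat.le_induction with
  | base => simp [ip]
  | succ b hb ih =>
    have hni : b + 1 ∉ Ioc a b := by simp
    have hip : 0 < ip (Ioc a b) := ip_pos _ (by
      intro s hs
      have := (mem_Ioc.1 hs).1
      omega)
    have e : ip (Ioc a (b + 1)) = ((b : ℝ) + 1) * ip (Ioc a b) := by
      rw [Ioc_succ _ _ hb]
      unfold ip
      rw [prod_insert hni]
      push_cast
      ring
    rw [e, Real.log_mul (by positivity) hip.ne', ih, lf_succ]
    ring

theorem beta1 : ∃ C : ℝ, ∀ k w p : ℕ, 1 ≤ p →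
    B1 (2 * k + 1 + w) w p (p + k) (p + k + w) - C * Real.log (p + k + w + 2)
      ≤ Real.log (Uf k (p + k) (p + k + w)) - Real.log (Uf k (p + k - 1) (p + k + w)) := by
  refine ⟨1000, fun k w p hp => ?_⟩
  obtain ⟨q, rfl⟩ := Nat.exists_eq_add_of_le' hp
  have eL : Real.log (((q + 1 : ℕ) : ℝ) + k + w + 2) = L (q + 1 + k + w) := by
    unfold L
    push_cast
    rfl
  have h1 : q + 1 + k - 1 = q + k := by omega
  have h2 : q + 1 + k + w = q + k + (w + 1) := by ring
  rw [eL, log_Uf_eq, h1]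
  rw [show Real.log (Uf k (q + k) (q + 1 + k + w)) = Real.log (Uf k (q + k) (q + k + (w + 1))) by
    rw [h2], log_Uf_eq]
  set N := q + 1 + k + w with hNdef
  have hN : (N : ℝ) = q + 1 + k + w := by rw [hNdef]; push_cast; ring
  have hq : (0 : ℝ) ≤ q := by positivity
  have hk : (0 : ℝ) ≤ k := by positivity
  have hw : (0 : ℝ) ≤ w := by positivity
  have hL := half_le_L N
  have e1 : 2 * k + (w + 1) = 2 * k + w + 1 := by ring
  have e2 : q + (2 * k + w + 1) = q + 1 + (2 * k + w) := by ring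
  have e3 : q + k + (w + 1) = q + k + 1 + w := by ring
  have e4 : k + (w + 1) = k + w + 1 := by ring
  have e5 : q + 1 + k = q + k + 1 := by ring
  rw [e1, e2, e3, e4, lo_succ, lo_succ, wv_pred q (q + 1 + (2 * k + w)) (by omega),
    wv_pred (q + k) (q + k + 1 + w) (by omega), e5]
  have f1 : q + 1 + (2 * k + w) - q - 1 = 2 * k + w := by omega
  have f2 : q + k + 1 + w - (q + k) - 1 = w := by omega
  rw [f1, f2]
  have t1 := abs_le_bounds (key N (2 * k + w) (2 * k + 1 + w) (by linarith)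
    (by push_cast; rw [hN]; linarith) (by push_cast; rw [abs_le]; constructor <;> linarith))
  have t2 := abs_le_bounds (key N (q + (q + 1 + (2 * k + w)) + 1) (2 * ((q : ℝ) + 1) + (2 * k + 1 + w))
    (by linarith) (by push_cast; rw [hN]; linarith)
    (by push_cast; rw [abs_le]; constructor <;> linarith))
  have t3 := abs_le_bounds (key N (2 * q + 2) (2 * ((q : ℝ) + 1)) (by linarith)
    (by push_cast; rw [hN]; linarith) (by push_cast; rw [abs_le]; constructor <;> linarith))
  have t4 := abs_le_bounds (key N (2 * (2 * k + w) + 1) (2 * (2 * (k : ℝ) + 1 + w)) (by linarith)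
    (by push_cast; rw [hN]; linarith) (by push_cast; rw [abs_le]; constructor <;> linarith))
  have t5 := abs_le_bounds (key N w (w : ℝ) (by linarith)
    (by rw [hN]; linarith) (by rw [abs_le]; constructor <;> linarith))
  have t6 := abs_le_bounds (key N (q + k + (q + k + 1 + w) + 1)
    ((q : ℝ) + 1 + k + (q + 1 + k + w)) (by linarith)
    (by push_cast; rw [hN]; linarith) (by push_cast; rw [abs_le]; constructor <;> linarith))
  have t7 := abs_le_bounds (key N (2 * (q + k) + 2) (2 * ((q : ℝ) + 1 + k)) (by linarith)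
    (by push_cast; rw [hN]; linarith) (by push_cast; rw [abs_le]; constructor <;> linarith))
  have t8 := abs_le_bounds (key N (2 * (k + w) + 1) (2 * (k : ℝ) + 1 + w + w) (by linarith)
    (by push_cast; rw [hN]; linarith) (by push_cast; rw [abs_le]; constructor <;> linarith))
  have l1 : Real.log ((q : ℝ) + 1) ≤ 7 * L N := log_le_L (by linarith) (by rw [hN]; linarith)
  have l2 : 0 ≤ Real.log (((q + k : ℕ) : ℝ) + 1) := Real.log_nonneg (by push_cast; linarith)
  have hN2 : N = q + k + 1 + w := by omega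
  have hN3 : wv (q + k + 1) N = wv (q + k + 1) (q + k + 1 + w) := by rw [hN2]
  unfold B1
  push_cast
  push_cast at l2
  linarith [hN3, t1.1, t1.2, t2.1, t2.2, t3.1, t3.2, t4.1, t4.2, t5.1, t5.2, t6.1, t6.2, t7.1, t7.2,
    t8.1, t8.2]

theorem beta2 : ∃ C : ℝ, ∀ k w p : ℕ, 1 ≤ k →
    B2 (2 * k + 1 + w) w p (p + k) (p + k + w) - C * Real.log (p + k + w + 2)
      ≤ Real.log (Uf k (p + k) (p + k + w)) - Real.log (Uf (k - 1) (p + k) (p + k + w))
        - 2 * Real.log (ip (Ioc (p + k) (p + k + w))) := by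
  refine ⟨1000, fun k w p hk => ?_⟩
  obtain ⟨κ, rfl⟩ := Nat.exists_eq_add_of_le' hk
  have eL : Real.log ((p : ℝ) + ((κ + 1 : ℕ) : ℝ) + w + 2) = L (p + (κ + 1) + w) := by
    unfold L
    push_cast
    rfl
  have h1 : κ + 1 - 1 = κ := by omega
  have h2 : p + (κ + 1) = p + 1 + κ := by ring
  rw [eL, log_Uf_eq, h1]
  rw [show Real.log (Uf κ (p + (κ + 1)) (p + (κ + 1) + w))
      = Real.log (Uf κ (p + 1 + κ) (p + 1 + κ + w)) by rw [h2], log_Uf_eq, log_ip _ _ (by omega)]
  set N := p + (κ + 1) + w with hNdef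
  have hN : (N : ℝ) = p + (κ + 1) + w := by rw [hNdef]; push_cast; ring
  have hp : (0 : ℝ) ≤ p := by positivity
  have hκ : (0 : ℝ) ≤ κ := by positivity
  have hw : (0 : ℝ) ≤ w := by positivity
  have hL := half_le_L N
  have e1 : 2 * (κ + 1) + w = 2 * κ + w + 1 + 1 := by ring
  have e2 : p + (2 * κ + w + 1 + 1) = p + 1 + (2 * κ + w) + 1 := by ring
  have e3 : κ + 1 + w = κ + w + 1 := by ring
  have e4 : p + 1 + κ = p + (κ + 1) := by ring
  rw [e1, e2, e3, e4, lo_succ, lo_succ, lo_succ, lo_succ, wv_pred p _ (by omega),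
    wv_succ (p + 1) _ (by omega)]
  have f1 : p + 1 + (2 * κ + w) + 1 - p - 1 = 2 * κ + w + 1 := by omega
  have f2 : p + 1 + (2 * κ + w) - (p + 1) = 2 * κ + w := by omega
  rw [f1, f2]
  have f3 : p + 1 + (p + 1 + (2 * κ + w)) + 1 = p + (p + 1 + (2 * κ + w) + 1) + 1 := by ring
  rw [f3]
  have t1 := abs_le_bounds (key N (2 * κ + w + 1) (2 * ((κ : ℝ) + 1) + 1 + w) (by linarith)
    (by push_cast; rw [hN]; linarith) (by push_cast; rw [abs_le]; constructor <;> linarith))
  have t2 := abs_le_bounds (key N (2 * κ + w) (2 * ((κ : ℝ) + 1) + 1 + w) (by linarith)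
    (by push_cast; rw [hN]; linarith) (by push_cast; rw [abs_le]; constructor <;> linarith))
  have t3 := abs_le_bounds (key N (2 * (p + 1 + (2 * κ + w)) + 1)
    (2 * (p : ℝ) + 2 * (2 * ((κ : ℝ) + 1) + 1 + w)) (by linarith)
    (by push_cast; rw [hN]; linarith) (by push_cast; rw [abs_le]; constructor <;> linarith))
  have t4 := abs_le_bounds (key N (2 * p + 2) (2 * (p : ℝ)) (by linarith)
    (by push_cast; rw [hN]; linarith) (by push_cast; rw [abs_le]; constructor <;> linarith))
  have t5 := abs_le_bounds (key N (2 * (2 * κ + w) + 1) (2 * (2 * ((κ : ℝ) + 1) + 1 + w))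
    (by linarith) (by push_cast; rw [hN]; linarith)
    (by push_cast; rw [abs_le]; constructor <;> linarith))
  have t6 := abs_le_bounds (key N (2 * (2 * κ + w + 1) + 1) (2 * (2 * ((κ : ℝ) + 1) + 1 + w))
    (by linarith) (by push_cast; rw [hN]; linarith)
    (by push_cast; rw [abs_le]; constructor <;> linarith))
  have t7 := abs_le_bounds (key N (2 * κ + 1) (2 * ((κ : ℝ) + 1) + 1 + w - w) (by linarith)
    (by push_cast; rw [hN]; linarith) (by push_cast; rw [abs_le]; constructor <;> linarith))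
  have t8 := abs_le_bounds (key N (2 * (κ + w) + 1) (2 * ((κ : ℝ) + 1) + 1 + w + w) (by linarith)
    (by push_cast; rw [hN]; linarith) (by push_cast; rw [abs_le]; constructor <;> linarith))
  have t9 := abs_le_bounds (key N N ((p : ℝ) + (κ + 1) + w) (by linarith)
    (by rw [hN]; linarith) (by rw [hN, abs_le]; constructor <;> linarith))
  have t10 := abs_le_bounds (key N (p + (κ + 1)) ((p : ℝ) + (κ + 1)) (by linarith)
    (by push_cast; rw [hN]; linarith) (by push_cast; rw [abs_le]; constructor <;> linarith))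
  have l1 : 0 ≤ Real.log ((p : ℝ) + 1) := Real.log_nonneg (by linarith)
  have l2 : 0 ≤ Real.log (((p + 1 + (2 * κ + w) : ℕ) : ℝ) + 1) :=
    Real.log_nonneg (by push_cast; linarith)
  unfold B2
  push_cast
  push_cast at l2
  linarith [t1.1, t1.2, t2.1, t2.2, t3.1, t3.2, t4.1, t4.2, t5.1, t5.2, t6.1, t6.2, t7.1, t7.2,
    t8.1, t8.2, t9.1, t9.2, t10.1, t10.2]

theorem beta3 : ∃ C : ℝ, ∀ k w p : ℕ,
    Real.log (Uf k (p + k) (p + k + w + 1)) - Real.log (Uf k (p + k) (p + k + w))
      ≤ B3 (2 * k + 1 + w) w p (p + k) (p + k + w) + C * Real.log (p + k + w + 2) := by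
  refine ⟨1000, fun k w p => ?_⟩
  have eL : Real.log ((p : ℝ) + k + w + 2) = L (p + k + w) := by
    unfold L
    push_cast
    rfl
  have h2 : p + k + w + 1 = p + k + (w + 1) := by ring
  rw [eL, h2, log_Uf_eq, log_Uf_eq]
  set N := p + k + w with hNdef
  have hN : (N : ℝ) = p + k + w := by rw [hNdef]; push_cast; ring
  have hp : (0 : ℝ) ≤ p := by positivity
  have hk : (0 : ℝ) ≤ k := by positivity
  have hw : (0 : ℝ) ≤ w := by positivity
  have hL := half_le_L N
  have e1 : 2 * k + (w + 1) = 2 * k + w + 1 := by ring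
  have e2 : p + (2 * k + w + 1) = p + (2 * k + w) + 1 := by ring
  have e3 : k + (w + 1) = k + w + 1 := by ring
  have e4 : p + k + (w + 1) = N + 1 := by rw [hNdef]; ring
  rw [e1, e2, e3, e4, lo_succ, lo_succ, wv_succ p _ (by omega), wv_succ (p + k) _ (by omega)]
  have f1 : p + (2 * k + w) - p = 2 * k + w := by omega
  have f2 : N - (p + k) = w := by omega
  rw [f1, f2]
  have t1 := abs_le_bounds (key N (2 * k + w) (2 * (k : ℝ) + 1 + w) (by linarith)
    (by push_cast; rw [hN]; linarith) (by push_cast; rw [abs_le]; constructor <;> linarith))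
  have t2 := abs_le_bounds (key N (2 * (p + (2 * k + w)) + 1)
    (2 * (p : ℝ) + 2 * (2 * (k : ℝ) + 1 + w)) (by linarith)
    (by push_cast; rw [hN]; linarith) (by push_cast; rw [abs_le]; constructor <;> linarith))
  have t3 := abs_le_bounds (key N (p + (p + (2 * k + w)) + 1)
    (2 * (p : ℝ) + (2 * (k : ℝ) + 1 + w)) (by linarith)
    (by push_cast; rw [hN]; linarith) (by push_cast; rw [abs_le]; constructor <;> linarith))
  have t4 := abs_le_bounds (key N (2 * (2 * k + w) + 1) (2 * (2 * (k : ℝ) + 1 + w))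
    (by linarith) (by push_cast; rw [hN]; linarith)
    (by push_cast; rw [abs_le]; constructor <;> linarith))
  have t5 := abs_le_bounds (key N w (w : ℝ) (by linarith)
    (by rw [hN]; linarith) (by rw [abs_le]; constructor <;> linarith))
  have t6 := abs_le_bounds (key N (2 * N + 1) (2 * ((p : ℝ) + k + w))
    (by linarith) (by push_cast; rw [hN]; linarith)
    (by push_cast; rw [hN, abs_le]; constructor <;> linarith))
  have t7 := abs_le_bounds (key N (p + k + N + 1) ((p : ℝ) + k + (p + k + w)) (by linarith)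
    (by push_cast; rw [hN]; linarith) (by push_cast; rw [hN, abs_le]; constructor <;> linarith))
  have t8 := abs_le_bounds (key N (2 * (k + w) + 1) (2 * (k : ℝ) + 1 + w + w) (by linarith)
    (by push_cast; rw [hN]; linarith) (by push_cast; rw [abs_le]; constructor <;> linarith))
  have l1 : Real.log (((p + (2 * k + w) : ℕ) : ℝ) + 1) ≤ 7 * L N :=
    log_le_L (by positivity) (by push_cast; rw [hN]; linarith)
  have l2 : 0 ≤ Real.log ((N : ℝ) + 1) := Real.log_nonneg (by rw [hN]; linarith)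
  unfold B3
  push_cast
  push_cast at l1
  linarith [t1.1, t1.2, t2.1, t2.2, t3.1, t3.2, t4.1, t4.2, t5.1, t5.2, t6.1, t6.2, t7.1, t7.2,
    t8.1, t8.2]

end Pool.Agent.Helper91.LB
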